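import Mathlib

/-!
# A strongly regular graph whose quantum chromatic number is smaller than its chromatic number

The graph has the 63 pairs of opposite roots of the root system `E_7` as vertices, two of them being
adjacent when they are orthogonal.  It is strongly regular with parameters `(63, 30, 13, 15)`.
-/

set_option autoImplicit false

namespace Pool.Agent.Results.MP_75a6b7_co.SevenRootLines

open Matrix

/-- A quantum `c`-colouring of `G` in dimension `d`: orthogonal projections `P v i` on `ℂ ^ d` with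
`∑ i, P v i = 1` for every vertex `v` and `P v i * P w i = 0` for every edge `vw` and colour `i`. -/
structure IsQuantumColouring {V : Type*} (G : SimpleGraph V) (c d : ℕ)
    (P : V → Fin c → Matrix (Fin d) (Fin d) ℂ) : Prop where
  hermitian : ∀ v i, (P v i).IsHermitian
  idempotent : ∀ v i, P v i * P v i = P v i
  complete : ∀ v, ∑ i, P v i = 1
  orthogonal : ∀ v w, G.Adj v w → ∀ i, P v i * P w i = 0

/-- The quantum chromatic number: the least `c` for which a quantum `c`-colouring exists in some
dimension `d ≥ 1`. -/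
noncomputable def quantumChromaticNumber {V : Type*} (G : SimpleGraph V) : ℕ :=
  sInf {c : ℕ | ∃ d : ℕ, 1 ≤ d ∧ ∃ P, IsQuantumColouring G c d P}

/-- Adjacency rows as bit masks. -/
def rowTable : List ℕ := [
   2189278964237606496, 3265904321655287120, 5534023222112865480, 3696554464622359364,
   5968064259141325506, 7053166851712475585, 36028249402245183, 3797883910026376244,
   6136951822187418666, 7357164465195443225, 542675476422329223, 8649154322498056199,
   1844758849863944601, 3074504258114357930, 5419179679241505588, 3804192357989239604,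
   6148867779456150186, 7378613188279146905, 574217716236548103, 8680696562326701959,
   1866207572936746521, 3086420215375516970, 5425488127203161268, 9187343789574848639,
   2170205186262426081, 3255307778311508690, 5526817572591448908, 3689348815037189324,
   5957467715557731666, 7034093073208319585, 1073741823, 3804216997840636724,
   6148914686225722026, 7378697619605395865, 574340909051181063, 8680820704314623879,
   1866291287014401561, 3086466623936484650, 5425512687598875828, 9187482877820895359,
   2170278592575857121, 3255346971437519570, 5526841102210741068, 3689368165717069004,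
   5957491193638202706, 7034131815369645665, 70366596726783, 9223090561878097919,
   2188923561008275041, 3265300300450409810, 5532869174708358348, 3694274736357684044,
   5963519266135036626, 7044085144375681505, 17874208637812863, 3761830276980061364,
   6064847680731174186, 7212965491766617625, 254320920133863303, 8072570356440266759,
   691752902764108185, 768614336404564650, 807469018063260468]

/-- The vertices as even-weight words of length seven. -/
def codeTable : List ℕ := [
   3, 5, 6, 9, 10, 12, 15, 17, 18, 20, 23, 24, 27, 29, 30, 33, 34, 36, 39, 40,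
   43, 45, 46, 48, 51, 53, 54, 57, 58, 60, 63, 65, 66, 68, 71, 72, 75, 77, 78, 80,
   83, 85, 86, 89, 90, 92, 95, 96, 99, 101, 102, 105, 106, 108, 111, 113, 114, 116, 119, 120,
   123, 125, 126]

/-- The roots, scaled by two. -/
def rootTable : List (List ℤ) := [
   [2, -2, 0, 0, 0, 0, 0, 0], [2, 0, -2, 0, 0, 0, 0, 0], [0, 2, -2, 0, 0, 0, 0, 0],
   [2, 0, 0, -2, 0, 0, 0, 0], [0, 2, 0, -2, 0, 0, 0, 0], [0, 0, 2, -2, 0, 0, 0, 0],
   [1, 1, 1, 1, -1, -1, -1, -1], [2, 0, 0, 0, -2, 0, 0, 0], [0, 2, 0, 0, -2, 0, 0, 0],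
   [0, 0, 2, 0, -2, 0, 0, 0], [1, 1, 1, -1, 1, -1, -1, -1], [0, 0, 0, 2, -2, 0, 0, 0],
   [1, 1, -1, 1, 1, -1, -1, -1], [1, -1, 1, 1, 1, -1, -1, -1], [-1, 1, 1, 1, 1, -1, -1, -1],
   [2, 0, 0, 0, 0, -2, 0, 0], [0, 2, 0, 0, 0, -2, 0, 0], [0, 0, 2, 0, 0, -2, 0, 0],
   [1, 1, 1, -1, -1, 1, -1, -1], [0, 0, 0, 2, 0, -2, 0, 0], [1, 1, -1, 1, -1, 1, -1, -1],
   [1, -1, 1, 1, -1, 1, -1, -1], [-1, 1, 1, 1, -1, 1, -1, -1], [0, 0, 0, 0, 2, -2, 0, 0],
   [1, 1, -1, -1, 1, 1, -1, -1], [1, -1, 1, -1, 1, 1, -1, -1], [-1, 1, 1, -1, 1, 1, -1, -1],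
   [1, -1, -1, 1, 1, 1, -1, -1], [-1, 1, -1, 1, 1, 1, -1, -1], [-1, -1, 1, 1, 1, 1, -1, -1],
   [0, 0, 0, 0, 0, 0, 2, -2], [2, 0, 0, 0, 0, 0, -2, 0], [0, 2, 0, 0, 0, 0, -2, 0],
   [0, 0, 2, 0, 0, 0, -2, 0], [1, 1, 1, -1, -1, -1, 1, -1], [0, 0, 0, 2, 0, 0, -2, 0],
   [1, 1, -1, 1, -1, -1, 1, -1], [1, -1, 1, 1, -1, -1, 1, -1], [-1, 1, 1, 1, -1, -1, 1, -1],
   [0, 0, 0, 0, 2, 0, -2, 0], [1, 1, -1, -1, 1, -1, 1, -1], [1, -1, 1, -1, 1, -1, 1, -1],
   [-1, 1, 1, -1, 1, -1, 1, -1], [1, -1, -1, 1, 1, -1, 1, -1], [-1, 1, -1, 1, 1, -1, 1, -1],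
   [-1, -1, 1, 1, 1, -1, 1, -1], [0, 0, 0, 0, 0, 2, 0, -2], [0, 0, 0, 0, 0, 2, -2, 0],
   [1, 1, -1, -1, -1, 1, 1, -1], [1, -1, 1, -1, -1, 1, 1, -1], [-1, 1, 1, -1, -1, 1, 1, -1],
   [1, -1, -1, 1, -1, 1, 1, -1], [-1, 1, -1, 1, -1, 1, 1, -1], [-1, -1, 1, 1, -1, 1, 1, -1],
   [0, 0, 0, 0, 2, 0, 0, -2], [1, -1, -1, -1, 1, 1, 1, -1], [-1, 1, -1, -1, 1, 1, 1, -1],
   [-1, -1, 1, -1, 1, 1, 1, -1], [0, 0, 0, 2, 0, 0, 0, -2], [-1, -1, -1, 1, 1, 1, 1, -1],
   [0, 0, 2, 0, 0, 0, 0, -2], [0, 2, 0, 0, 0, 0, 0, -2], [2, 0, 0, 0, 0, 0, 0, -2]]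

/-- Signs of an octonion multiplication table. -/
def signTable : List (List ℤ) := [
   [1, 1, 1, 1, 1, 1, 1, 1],
   [1, -1, 1, -1, 1, -1, 1, -1],
   [1, -1, -1, 1, 1, -1, -1, 1],
   [1, 1, -1, -1, -1, -1, 1, 1],
   [1, -1, -1, 1, -1, 1, 1, -1],
   [1, 1, 1, 1, -1, -1, -1, -1],
   [1, -1, 1, -1, -1, 1, -1, 1],
   [1, 1, -1, -1, 1, 1, -1, -1]]

/-- The adjacency row of a vertex. -/
def row (v : Fin 63) : ℕ := rowTable.getD v 0

/-- The code word of a vertex. -/
def code (v : Fin 63) : ℕ := codeTable.getD v 0

/-- The root attached to a vertex. -/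
def root (v : Fin 63) (i : Fin 8) : ℤ := (rootTable.getD v []).getD i 0

/-- The signs. -/
def sg (i a : Fin 8) : ℤ := (signTable.getD i []).getD a 0

/-- Bitwise exclusive or on `Fin 8`. -/
def xr (i a : Fin 8) : Fin 8 := ⟨(Nat.xor i a) % 8, Nat.mod_lt _ (by decide)⟩

/-- The number of ones among the `k` lowest bits. -/
def pc : ℕ → ℕ → ℕ
  | 0, _ => 0
  | k + 1, n => n % 2 + pc k (n / 2)

theorem row_symm : ∀ v w : Fin 63, (row v).testBit w = (row w).testBit v := by decide +kernel

theorem row_irrefl : ∀ v : Fin 63, (row v).testBit v = false := by decide +kernel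

theorem root_orth : ∀ v w : Fin 63, (row v).testBit w = true → ∑ i, root v i * root w i = 0 := by
  decide +kernel

theorem root_norm : ∀ v : Fin 63, ∑ i, root v i * root v i = 8 := by
  decide +kernel

theorem row_pc : ∀ v w : Fin 63, pc 63 (row v &&& row w) =
    if v = w then 30 else if (row v).testBit w then 13 else 15 := by
  decide +kernel

/-- The coordinate vectors over the field with two elements. -/
def vec (v : Fin 63) (i : Fin 7) : ZMod 2 := if (code v).testBit i then 1 else 0

theorem vec_self : ∀ v : Fin 63, ∑ i, vec v i * vec v i = 0 := by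
  decide +kernel

theorem vec_dot : ∀ v w : Fin 63, v ≠ w → (row v).testBit w = false →
    ∑ i, vec v i * vec w i = 1 := by
  decide +kernel

/-- The coordinates of the images of the roots under the eight signed permutations. -/
def yy (v : Fin 63) (i a : Fin 8) : ℤ := sg i a * root v (xr i a)

theorem yy_complete : ∀ (v : Fin 63) (a b : Fin 8),
    ∑ i, yy v i a * yy v i b = if a = b then 8 else 0 := by
  decide +kernel

theorem sg_sq : ∀ i a : Fin 8, sg i a * sg i a = 1 := by
  decide +kernel

theorem xr_inj : ∀ i a b : Fin 8, xr i a = xr i b → a = b := by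
  decide +kernel

theorem yy_dot (v w : Fin 63) (i : Fin 8) :
    ∑ c, yy v i c * yy w i c = ∑ c, root v c * root w c := by
  have hbij : Function.Bijective (xr i) :=
    Finite.injective_iff_bijective.1 (fun a b h => xr_inj i a b h)
  refine Fintype.sum_bijective (xr i) hbij _ _ (fun c => ?_)
  unfold yy
  calc sg i c * root v (xr i c) * (sg i c * root w (xr i c))
      = (sg i c * sg i c) * (root v (xr i c) * root w (xr i c)) := by ring
    _ = _ := by rw [sg_sq, one_mul]

/-- The graph on the `63` pairs of opposite roots of `E_7`. -/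
def Gr : SimpleGraph (Fin 63) where
  Adj v w := (row v).testBit w = true
  symm := ⟨by
    intro v w h
    rw [row_symm]
    exact h⟩
  loopless := ⟨by
    intro v h
    rw [row_irrefl] at h
    exact absurd h (by simp)⟩

instance : DecidableRel Gr.Adj := fun v w => inferInstanceAs (Decidable ((row v).testBit w = true))

theorem card_filter_testBit (k n : ℕ) :
    (Finset.univ.filter (fun u : Fin k => n.testBit u = true)).card = pc k n := by
  induction k generalizing n with
  | zero => simp [pc]
  | succ k ih =>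
    rw [Finset.card_filter, Fin.sum_univ_succ, pc, ← ih (n / 2), Finset.card_filter]
    congr 1
    · rw [Fin.val_zero, Nat.testBit_zero]
      rcases Nat.mod_two_eq_zero_or_one n with h | h <;> simp [h]
    · apply Finset.sum_congr rfl
      intro u _
      rw [Fin.val_succ, Nat.testBit_succ]

theorem card_common (v w : Fin 63) :
    (Finset.univ.filter (fun u : Fin 63 => Gr.Adj v u ∧ Gr.Adj w u)).card =
      if v = w then 30 else if (row v).testBit w then 13 else 15 := by
  rw [← row_pc, ← card_filter_testBit]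
  congr 1
  ext u
  simp only [Finset.mem_filter, Finset.mem_univ, true_and, Nat.testBit_and, Bool.and_eq_true]
  rfl

theorem srg : Gr.IsSRGWith 63 30 13 15 where
  card := by simp
  regular := by
    intro v
    have h := card_common v v
    rw [if_pos rfl] at h
    rw [← SimpleGraph.card_neighborFinset_eq_degree, ← h]
    congr 1
    ext u
    simp
  of_adj := by
    intro v w hvw
    have h := card_common v w
    have hne : v ≠ w := hvw.ne
    have hadj : (row v).testBit w = true := hvw
    rw [if_neg hne, if_pos hadj] at h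
    rw [← h, ← Set.toFinset_card]
    congr 1
    ext u
    simp [SimpleGraph.mem_commonNeighbors]
  of_not_adj := by
    intro v w hne hvw
    have h := card_common v w
    have hadj : ¬ (row v).testBit w = true := hvw
    rw [if_neg hne, if_neg hadj] at h
    rw [← h, ← Set.toFinset_card]
    congr 1
    ext u
    simp [SimpleGraph.mem_commonNeighbors]

theorem card_indep_le (S : Finset (Fin 63)) (hS : ∀ v ∈ S, ∀ w ∈ S, ¬ Gr.Adj v w) :
    S.card ≤ 7 := by
  by_contra hcon
  push Not at hcon
  obtain ⟨T, hTS, hT⟩ := Finset.exists_subset_card_eq (show 8 ≤ S.card by omega)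
  have hdot : ∀ v ∈ T, ∀ w ∈ T, v ≠ w → ∑ i, vec v i * vec w i = 1 := by
    intro v hv w hw hne
    apply vec_dot v w hne
    have : ¬ (row v).testBit w = true := hS v (hTS hv) w (hTS hw)
    simpa using this
  have hli : LinearIndependent (ZMod 2) (fun v : T => vec v.1) := by
    rw [Fintype.linearIndependent_iff]
    intro g hg u
    have hall : ∀ u : T, g u = ∑ v, g v := by
      intro u
      have h1 : ∑ i, (∑ v : T, g v • vec v.1) i * vec u.1 i = 0 := by
        rw [hg]
        simp
      have h2 : ∑ i, (∑ v : T, g v • vec v.1) i * vec u.1 i =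
          ∑ v : T, g v * ∑ i, vec v.1 i * vec u.1 i := by
        simp only [Finset.sum_apply, Pi.smul_apply, smul_eq_mul, Finset.sum_mul, Finset.mul_sum]
        rw [Finset.sum_comm]
        refine Finset.sum_congr rfl fun v _ => Finset.sum_congr rfl fun i _ => by ring
      rw [h2] at h1
      have h3 : ∑ v : T, g v * ∑ i, vec v.1 i * vec u.1 i = ∑ v : T, (g v - if v = u then g v else 0) := by
        refine Finset.sum_congr rfl fun v _ => ?_
        by_cases hvu : v = u
        · rw [if_pos hvu, hvu, vec_self]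
          simp
        · rw [if_neg hvu, hdot v.1 v.2 u.1 u.2 (fun h => hvu (Subtype.ext h))]
          simp
      rw [h3, Finset.sum_sub_distrib, Finset.sum_ite_eq' Finset.univ u, if_pos (Finset.mem_univ _)]
        at h1
      exact (sub_eq_zero.1 h1).symm
    have hsum : ∑ v, g v = 0 := by
      have h4 : ∑ v, g v = ∑ v : T, ∑ w, g w := Finset.sum_congr rfl fun v _ => hall v
      rw [h4, Finset.sum_const, Finset.card_univ, Fintype.card_coe, hT, nsmul_eq_mul]
      have : ((8 : ℕ) : ZMod 2) = 0 := by decide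
      rw [this, zero_mul]
    rw [hall u, hsum]
  have := hli.fintype_card_le_finrank
  rw [Fintype.card_coe, hT] at this
  simp at this

theorem not_colorable : ¬ Gr.Colorable 8 := by
  rintro ⟨C⟩
  have h : (Finset.univ : Finset (Fin 8)).card * 7 < (Finset.univ : Finset (Fin 63)).card := by
    simp
  obtain ⟨c, -, hc⟩ := Finset.exists_lt_card_fiber_of_mul_lt_card_of_maps_to
    (f := fun v => C v) (fun v _ => Finset.mem_univ (C v)) h
  have := card_indep_le (Finset.univ.filter (fun v => C v = c)) (by
    intro v hv w hw hadj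
    rw [Finset.mem_filter] at hv hw
    exact C.valid hadj (hv.2.trans hw.2.symm))
  omega

theorem nine_le : 9 ≤ Gr.chromaticNumber := by
  by_contra h
  push Not at h
  apply not_colorable
  have h1 : Gr.chromaticNumber ≤ 8 := Order.le_of_lt_add_one (by exact_mod_cast h)
  exact SimpleGraph.chromaticNumber_le_iff_colorable.1 (by exact_mod_cast h1)

/-- The projections. -/
noncomputable def PP (v : Fin 63) (i : Fin 8) : Matrix (Fin 8) (Fin 8) ℂ :=
  fun a b => ((yy v i a * yy v i b : ℤ) : ℂ) / 8

theorem PP_mul (v w : Fin 63) (i : Fin 8) (a b : Fin 8) :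
    (PP v i * PP w i) a b =
      ((yy v i a * yy w i b : ℤ) : ℂ) * ((∑ c, root v c * root w c : ℤ) : ℂ) / 64 := by
  rw [← yy_dot v w i, Matrix.mul_apply]
  push_cast
  rw [Finset.mul_sum, Finset.sum_div]
  refine Finset.sum_congr rfl fun c _ => ?_
  unfold PP
  push_cast
  ring

theorem isQuantumColouring_PP : IsQuantumColouring Gr 8 8 PP where
  hermitian := by
    intro v i
    ext a b
    simp only [PP, Matrix.conjTranspose_apply, star_div₀, RCLike.star_def]
    push_cast
    simp [mul_comm, map_ofNat]
  idempotent := by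
    intro v i
    ext a b
    rw [PP_mul, root_norm]
    unfold PP
    push_cast
    ring
  complete := by
    intro v
    ext a b
    rw [Matrix.sum_apply]
    have h := yy_complete v a b
    unfold PP
    rw [← Finset.sum_div, ← Int.cast_sum, h, Matrix.one_apply]
    split_ifs <;> simp
  orthogonal := by
    intro v w hvw i
    ext a b
    rw [PP_mul, root_orth v w hvw]
    simp

/-- There is a strongly regular graph, with parameters `(63, 30, 13, 15)`, whose quantum chromatic
number is at most `8` while its chromatic number is at least `9`. -/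
theorem result : ∃ (G : SimpleGraph (Fin 63)) (_ : DecidableRel G.Adj),
    G.IsSRGWith 63 30 13 15 ∧ quantumChromaticNumber G ≤ 8 ∧ 9 ≤ G.chromaticNumber ∧
      (quantumChromaticNumber G : ℕ∞) < G.chromaticNumber := by
  have h1 : quantumChromaticNumber Gr ≤ 8 :=
    Nat.sInf_le ⟨8, by norm_num, PP, isQuantumColouring_PP⟩
  refine ⟨Gr, inferInstance, srg, h1, nine_le, lt_of_lt_of_le ?_ nine_le⟩
  have h2 : quantumChromaticNumber Gr < 9 := by omega
  exact_mod_cast h2

end Pool.Agent.Results.MP_75a6b7_co.SevenRootLines
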